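import Mathlib

/-!
Kummer theory of exponent four over a field containing the fourth roots of unity.
-/

set_option autoImplicit false

open NumberField IsDedekindDomain

namespace Pool.Agent.L7h53.EQ

theorem fourth {F : Type} [Field F] {j a b : F} (hj : j ^ 2 = -1) (h : a ^ 4 = b ^ 4) :
    a = b ∨ a = j * b ∨ a = -b ∨ a = -j * b := by
  have e : (a - b) * (a - j * b) * (a + b) * (a + j * b) = 0 := by
    have : (a - b) * (a - j * b) * (a + b) * (a + j * b) =
        (a ^ 2 - b ^ 2) * (a ^ 2 - j ^ 2 * b ^ 2) := by ring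
    rw [this, hj]
    linear_combination h
  rcases mul_eq_zero.1 e with e | e
  · rcases mul_eq_zero.1 e with e | e
    · rcases mul_eq_zero.1 e with e | e
      · left; linear_combination e
      · right; left; linear_combination e
    · right; right; left; linear_combination e
  · right; right; right; linear_combination e

/-- the automorphisms multiply fourth roots by fourth roots of unity of `K` -/
theorem act {K F : Type} [Field K] [Field F] [Algebra K F] {j : K} (hj : j ^ 2 = -1) {x : K}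
    {y : F} (hy : y ^ 4 = algebraMap K F x) (s : F ≃ₐ[K] F) :
    ∃ u : K, u ^ 4 = 1 ∧ s y = algebraMap K F u * y := by
  have h1 : (s y) ^ 4 = y ^ 4 := by
    rw [← map_pow, hy, AlgEquiv.commutes]
  have hj' : (algebraMap K F j) ^ 2 = -1 := by rw [← map_pow, hj, map_neg, map_one]
  have hj4 : j ^ 4 = 1 := by
    calc j ^ 4 = (j ^ 2) ^ 2 := by ring
      _ = 1 := by rw [hj]; ring
  rcases fourth hj' h1 with h | h | h | h
  · exact ⟨1, by ring, by rw [map_one, one_mul]; exact h⟩
  · exact ⟨j, hj4, h⟩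
  · exact ⟨-1, by ring, by rw [map_neg, map_one, neg_one_mul]; exact h⟩
  · exact ⟨-j, by rw [neg_pow, hj4]; ring, by rw [map_neg]; exact h⟩

/-- automorphisms agreeing on generators -/
theorem eq_of_gen {K F : Type} [Field K] [Field F] [Algebra K F] {T : Set F}
    (hT : IntermediateField.adjoin K T = ⊤) {s t : F ≃ₐ[K] F} (h : ∀ x ∈ T, s x = t x) : s = t := by
  ext x
  have hx : x ∈ IntermediateField.adjoin K T := by rw [hT]; exact IntermediateField.mem_top
  induction hx using IntermediateField.adjoin_induction with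
  | mem x hx => exact h x hx
  | algebraMap x => rw [AlgEquiv.commutes, AlgEquiv.commutes]
  | add x y _ _ hx hy => rw [map_add, map_add, hx, hy]
  | inv x _ hx => rw [map_inv₀, map_inv₀, hx]
  | mul x y _ _ hx hy => rw [map_mul, map_mul, hx, hy]

theorem gal (K F : Type) [Field K] [NumberField K] [Field F] [NumberField F] [Algebra K F]
    (j : K) (hj : j ^ 2 = -1) (T : Finset F) (hT : ∀ t ∈ T, ∃ x : K, t ^ 4 = algebraMap K F x)
    (hadj : IntermediateField.adjoin K (T : Set F) = ⊤) :
    IsGalois K F ∧ ∀ s t : F ≃ₐ[K] F, s * t = t * s := by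
  have hint : ∀ x : F, IsIntegral K x := fun x => by
    have : FiniteDimensional K F := inferInstance
    exact IsIntegral.of_finite K x
  have hj' : (algebraMap K F j) ^ 2 = -1 := by rw [← map_pow, hj, map_neg, map_one]
  have hn : Normal K F := by
    rw [normal_iff]
    intro x
    refine ⟨hint x, ?_⟩
    have hx : x ∈ IntermediateField.adjoin K (T : Set F) := by
      rw [hadj]; exact IntermediateField.mem_top
    refine IntermediateField.splits_of_mem_adjoin K F (S := (T : Set F)) ?_ hx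
    intro t ht
    refine ⟨hint t, ?_⟩
    obtain ⟨a, ha⟩ := hT t ht
    have h1 : minpoly K t ∣ Polynomial.X ^ 4 - Polynomial.C a := by
      apply minpoly.dvd
      simp [ha]
    have h2 : (Polynomial.X ^ 4 - Polynomial.C a : Polynomial K).map (algebraMap K F) =
        (Polynomial.X - Polynomial.C t) * (Polynomial.X - Polynomial.C (algebraMap K F j * t)) *
        (Polynomial.X - Polynomial.C (-t)) *
        (Polynomial.X - Polynomial.C (-(algebraMap K F j * t))) := by
      simp only [Polynomial.map_sub, Polynomial.map_pow, Polynomial.map_X, Polynomial.map_C,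
        ← ha, Polynomial.C_neg, Polynomial.C_mul, Polynomial.C_pow]
      have hC : (Polynomial.C (algebraMap K F j)) ^ 2 = -1 := by
        rw [← Polynomial.C_pow, hj']; simp
      linear_combination (Polynomial.X ^ 2 * Polynomial.C t ^ 2 - Polynomial.C t ^ 4) * hC
    refine Polynomial.Splits.of_dvd ?_ ?_ (Polynomial.map_dvd _ h1)
    · rw [h2]
      refine Polynomial.Splits.mul (Polynomial.Splits.mul (Polynomial.Splits.mul ?_ ?_) ?_) ?_ <;>
        exact Polynomial.Splits.X_sub_C _
    · rw [h2]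
      refine mul_ne_zero (mul_ne_zero (mul_ne_zero ?_ ?_) ?_) ?_ <;>
        exact Polynomial.X_sub_C_ne_zero _
  refine ⟨{ to_normal := hn, to_isSeparable := inferInstance }, fun s t => ?_⟩
  apply eq_of_gen hadj
  intro x hx
  obtain ⟨a, ha⟩ := hT x hx
  obtain ⟨u, -, hu⟩ := act hj ha s
  obtain ⟨w, -, hw⟩ := act hj ha t
  rw [AlgEquiv.mul_apply, AlgEquiv.mul_apply, hw, hu, map_mul, map_mul, AlgEquiv.commutes,
    AlgEquiv.commutes, hw, hu]
  ring

theorem kum (K F : Type) [Field K] [NumberField K] [Field F] [NumberField F] [Algebra K F]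
    (σ : K →+* ℂ) (j : K) (hj : j ^ 2 = -1) (T : Finset F) (Δ : Submonoid K)
    (hT : ∀ t ∈ T, t ≠ 0 ∧ ∃ x ∈ Δ, t ^ 4 = algebraMap K F x)
    (hadj : IntermediateField.adjoin K (T : Set F) = ⊤) (ψ : (F ≃ₐ[K] F) →* ℂ) :
    ∃ x ∈ Δ, ∃ y : F, y ≠ 0 ∧ y ^ 4 = algebraMap K F x ∧
      ∀ g : F ≃ₐ[K] F, ∃ u : K, u ^ 4 = 1 ∧ g y = algebraMap K F u * y ∧ ψ g = σ u := by
  have hcomm := (gal K F j hj T (fun t ht => by
    obtain ⟨-, x, -, hx⟩ := hT t ht
    exact ⟨x, hx⟩) hadj).2
  let iG : CommGroup (F ≃ₐ[K] F) := { (inferInstance : Group (F ≃ₐ[K] F)) with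
    mul_comm := hcomm }
  have hσ0 : ∀ u : K, u ^ 4 = 1 → σ u ≠ 0 := by
    intro u hu h
    have h0 : u = 0 := (map_eq_zero σ).1 h
    rw [h0] at hu
    norm_num at hu
  -- the submonoid of the Kummer characters
  let P : ((F ≃ₐ[K] F) →* ℂˣ) → Prop := fun φ => ∃ x ∈ Δ, ∃ y : F, y ≠ 0 ∧
    y ^ 4 = algebraMap K F x ∧ ∀ g : F ≃ₐ[K] F, ∃ u : K, u ^ 4 = 1 ∧ g y = algebraMap K F u * y ∧
      ((φ g : ℂˣ) : ℂ) = σ u
  let H : Submonoid ((F ≃ₐ[K] F) →* ℂˣ) :=
    { carrier := {φ | P φ}
      one_mem' := by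
        refine ⟨1, Δ.one_mem, 1, one_ne_zero, by simp, fun g => ⟨1, by simp, by simp, by simp⟩⟩
      mul_mem' := by
        rintro φ φ' ⟨x, hx, y, hy0, hy, hg⟩ ⟨x', hx', y', hy0', hy', hg'⟩
        refine ⟨x * x', Δ.mul_mem hx hx', y * y', mul_ne_zero hy0 hy0', ?_, fun g => ?_⟩
        · rw [mul_pow, hy, hy', map_mul]
        · obtain ⟨u, h1, h2, h3⟩ := hg g
          obtain ⟨u', h1', h2', h3'⟩ := hg' g
          refine ⟨u * u', ?_, ?_, ?_⟩
          · rw [mul_pow, h1, h1', one_mul]
          · rw [map_mul, h2, h2', map_mul]; ring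
          · rw [MonoidHom.mul_apply, Units.val_mul, h3, h3', map_mul] }
  let H' : Subgroup ((F ≃ₐ[K] F) →* ℂˣ) :=
    { H with
      inv_mem' := by
        rintro φ ⟨x, hx, y, hy0, hy, hg⟩
        refine ⟨x ^ 3, Δ.pow_mem hx 3, y ^ 3, pow_ne_zero 3 hy0, ?_, fun g => ?_⟩
        · rw [← pow_mul, mul_comm 3 4, pow_mul, hy, map_pow]
        · obtain ⟨u, h1, h2, h3⟩ := hg g
          refine ⟨u ^ 3, ?_, ?_, ?_⟩
          · rw [← pow_mul, mul_comm 3 4, pow_mul, h1, one_pow]
          · rw [map_pow, h2, map_pow]; ring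
          · rw [MonoidHom.inv_apply, Units.val_inv_eq_inv_val, h3, map_pow]
            have h4 : σ u * σ u ^ 3 = 1 := by
              rw [← pow_succ', ← map_pow, h1, map_one]
            exact inv_eq_of_mul_eq_one_right h4 }
  have hH' : ∀ φ, φ ∈ H' ↔ P φ := fun φ => Iff.rfl
  have htriv : ∀ g : F ≃ₐ[K] F, (∀ φ ∈ H', φ g = 1) → g = 1 := by
    intro g hg
    apply eq_of_gen hadj
    intro t ht
    obtain ⟨ht0, x, hx, htx⟩ := hT t ht
    -- the Kummer character of `t`
    choose u hu1 hu2 using fun s : F ≃ₐ[K] F => act hj htx s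
    have hinj : Function.Injective (algebraMap K F) := (algebraMap K F).injective
    have hu0 : ∀ s, u s ≠ 0 := by
      intro s h
      have := hu1 s
      rw [h] at this
      norm_num at this
    have humul : ∀ s s', u (s * s') = u s * u s' := by
      intro s s'
      apply hinj
      apply mul_right_cancel₀ ht0
      rw [← hu2, AlgEquiv.mul_apply, hu2 s', map_mul, AlgEquiv.commutes, hu2 s, map_mul]
      ring
    let φ : (F ≃ₐ[K] F) →* ℂˣ := MonoidHom.toHomUnits
      { toFun := fun s => σ (u s)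
        map_one' := by
          have h1 : u 1 = 1 := by
            have := humul 1 1
            rw [one_mul] at this
            exact (mul_left_cancel₀ (hu0 1) (by rw [mul_one]; exact this)).symm
          rw [h1, map_one]
        map_mul' := fun s s' => by rw [humul, map_mul] }
    have hφ : φ ∈ H' := by
      rw [hH']
      exact ⟨x, hx, t, ht0, htx, fun s => ⟨u s, hu1 s, hu2 s, rfl⟩⟩
    have h1 := hg φ hφ
    have h2 : σ (u g) = 1 := by
      have := congrArg (fun z : ℂˣ => (z : ℂ)) h1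
      simpa [φ] using this
    have h3 : u g = 1 := σ.injective (by rw [h2, map_one])
    rw [hu2 g, h3, map_one, one_mul]
    rfl
  have htop : H' = ⊤ := by
    have h1 : (CommGroup.subgroupOrderIsoSubgroupMonoidHom (F ≃ₐ[K] F) ℂ).symm
        (OrderDual.toDual H') = ⊥ := by
      rw [eq_bot_iff]
      intro g hg
      rw [CommGroup.mem_subgroupOrderIsoSubgroupMonoidHom_symm_iff] at hg
      exact Subgroup.mem_bot.2 (htriv g hg)
    have h2 := congrArg (CommGroup.subgroupOrderIsoSubgroupMonoidHom (F ≃ₐ[K] F) ℂ) h1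
    rw [OrderIso.apply_symm_apply, map_bot] at h2
    exact h2
  have hψ : ψ.toHomUnits ∈ H' := by rw [htop]; exact Subgroup.mem_top _
  rw [hH'] at hψ
  obtain ⟨x, hx, y, hy0, hy, hg⟩ := hψ
  refine ⟨x, hx, y, hy0, hy, fun g => ?_⟩
  obtain ⟨u, h1, h2, h3⟩ := hg g
  exact ⟨u, h1, h2, by simpa using h3⟩

end Pool.Agent.L7h53.EQ
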